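import Mathlib

/-!
# Bent functions which are affine on the slices, part 1

Sums of signs, weights, functions on slices.
-/

set_option autoImplicit false

open Finset

namespace Pool.Agent.X115.KB

/-- the sign of an element of `ZMod 2` -/
def sgn (a : ZMod 2) : ℤ := (-1) ^ a.val

lemma sgn_add : ∀ a b : ZMod 2, sgn (a + b) = sgn a * sgn b := by decide
lemma sgn_mul_self : ∀ a : ZMod 2, sgn a * sgn a = 1 := by decide
lemma sgn_zero : sgn 0 = 1 := by decide
lemma sgn_one : sgn 1 = -1 := by decide
lemma sgn_inj : ∀ a b : ZMod 2, sgn a = sgn b → a = b := by decide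
lemma sgn_le : ∀ a b : ZMod 2, 0 ≤ 1 - sgn a * sgn b := by decide
lemma sgn_eq (a : ZMod 2) : sgn a = 1 ∨ sgn a = -1 := by
  revert a; decide
lemma zmod_add_self (a : ZMod 2) : a + a = 0 := by revert a; decide
lemma zmod_ne : ∀ a b : ZMod 2, a ≠ b → a + 1 = b := by decide
lemma zmod_ne' : ∀ a b : ZMod 2, a ≠ b → a + b = 1 := by decide
lemma zmod_cases (a : ZMod 2) : a = 0 ∨ a = 1 := by revert a; decide

variable {ι : Type*} [Fintype ι] [DecidableEq ι]

/-- the bilinear form -/
def dot (x y : ι → ZMod 2) : ZMod 2 := ∑ i, x i * y i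

omit [DecidableEq ι] in
lemma dot_comm (x y : ι → ZMod 2) : dot x y = dot y x := by
  unfold dot; exact sum_congr rfl fun i _ => mul_comm _ _

omit [DecidableEq ι] in
lemma dot_add (x y z : ι → ZMod 2) : dot x (y + z) = dot x y + dot x z := by
  unfold dot; rw [← sum_add_distrib]; exact sum_congr rfl fun i _ => by simp [mul_add]

omit [DecidableEq ι] in
lemma add_dot (x y z : ι → ZMod 2) : dot (x + y) z = dot x z + dot y z := by
  rw [dot_comm, dot_add, dot_comm z x, dot_comm z y]

omit [DecidableEq ι] in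
lemma dot_zero (x : ι → ZMod 2) : dot x 0 = 0 := by simp [dot]

lemma dot_single (x : ι → ZMod 2) (i : ι) : dot x (Pi.single i 1) = x i := by
  unfold dot
  rw [sum_eq_single i]
  · simp
  · intro j _ hj; simp [hj]
  · simp

omit [Fintype ι] [DecidableEq ι] in
lemma add_self (x : ι → ZMod 2) : x + x = 0 := by
  ext i; exact zmod_add_self _

omit [Fintype ι] [DecidableEq ι] in
lemma add_eq_zero_iff (x y : ι → ZMod 2) : x + y = 0 ↔ y = x := by
  constructor
  · intro h
    have : x + (x + y) = x := by rw [h, add_zero]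
    rwa [← add_assoc, add_self, zero_add] at this
  · rintro rfl; exact add_self _

lemma sum_sgn_dot (z : ι → ZMod 2) (hz : z ≠ 0) : ∑ a : ι → ZMod 2, sgn (dot a z) = 0 := by
  obtain ⟨i, hi⟩ : ∃ i, z i ≠ 0 := by
    by_contra h; push Not at h; exact hz (funext h)
  have hi1 : z i = 1 := by
    rcases zmod_cases (z i) with h | h
    · exact absurd h hi
    · exact h
  have h := Equiv.sum_comp (Equiv.addRight (Pi.single i (1 : ZMod 2) : ι → ZMod 2))
    (fun a => sgn (dot a z))
  have h2 : ∀ a : ι → ZMod 2, sgn (dot (Equiv.addRight (Pi.single i (1 : ZMod 2) : ι → ZMod 2) a) z)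
      = - sgn (dot a z) := by
    intro a
    rw [Equiv.coe_addRight, add_dot, dot_comm (Pi.single i 1), dot_single, hi1, sgn_add, sgn_one]
    ring
  simp only [h2, sum_neg_distrib] at h
  linarith

lemma sum_sgn_dot' (z : ι → ZMod 2) :
    ∑ a : ι → ZMod 2, sgn (dot a z) = if z = 0 then (Fintype.card (ι → ZMod 2) : ℤ) else 0 := by
  split_ifs with h
  · subst h; simp [dot_zero, sgn_zero]
  · exact sum_sgn_dot z h

lemma corr (S : (ι → ZMod 2) → ℤ) (v : ι → ZMod 2) :
    ∑ a : ι → ZMod 2, sgn (dot a v) * (∑ u, sgn (dot a u) * S u) ^ 2 =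
      Fintype.card (ι → ZMod 2) * ∑ u, S u * S (u + v) := by
  have h1 : ∀ a : ι → ZMod 2, sgn (dot a v) * (∑ u, sgn (dot a u) * S u) ^ 2 =
      ∑ u, ∑ w, S u * S w * sgn (dot a (v + u + w)) := by
    intro a
    rw [sq, sum_mul_sum, mul_sum]
    refine sum_congr rfl fun u _ => ?_
    rw [mul_sum]
    refine sum_congr rfl fun w _ => ?_
    rw [dot_add, dot_add, sgn_add, sgn_add]
    ring
  simp only [h1]
  rw [sum_comm, mul_sum]
  refine sum_congr rfl fun u _ => ?_
  rw [sum_comm]
  have h2 : ∀ w : ι → ZMod 2, ∑ a : ι → ZMod 2, S u * S w * sgn (dot a (v + u + w)) =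
      if w = u + v then (Fintype.card (ι → ZMod 2) : ℤ) * (S u * S (u + v)) else 0 := by
    intro w
    rw [← mul_sum, sum_sgn_dot']
    by_cases hw : w = u + v
    · rw [if_pos hw, if_pos, hw]
      · ring
      · rw [hw, add_comm v u]; exact add_self _
    · rw [if_neg hw, if_neg, mul_zero]
      intro h
      rw [add_eq_zero_iff] at h
      exact hw (by rw [h, add_comm])
  simp only [h2]
  rw [sum_ite_eq' univ (u + v)]
  simp

/-! ## weights -/

/-- the weight of a vector -/
def wt (x : ι → ZMod 2) : ℕ := ∑ i, (x i).val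

/-- the sum of two unit vectors -/
def E (i j : ι) : ι → ZMod 2 := Pi.single i 1 + Pi.single j 1

omit [Fintype ι] in
lemma E_comm (i j : ι) : E i j = E j i := by unfold E; rw [add_comm]

omit [Fintype ι] in
lemma add_E_eq_swap {x : ι → ZMod 2} {k l : ι} (h : x k ≠ x l) :
    x + E k l = x ∘ (Equiv.swap k l) := by
  have hkl : k ≠ l := by rintro rfl; exact h rfl
  ext i
  by_cases h1 : i = k
  · subst h1
    simp only [E, Pi.add_apply, Pi.single_eq_same, Pi.single_eq_of_ne hkl, add_zero,
      Function.comp_apply, Equiv.swap_apply_left]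
    rw [zmod_ne _ _ h]
  · by_cases h2 : i = l
    · subst h2
      simp only [E, Pi.add_apply, Pi.single_eq_same, Pi.single_eq_of_ne h1, zero_add,
        Function.comp_apply, Equiv.swap_apply_right]
      rw [zmod_ne _ _ h.symm]
    · simp [E, h1, h2, Equiv.swap_apply_of_ne_of_ne]

omit [DecidableEq ι] in
lemma wt_comp (x : ι → ZMod 2) (e : ι ≃ ι) : wt (x ∘ e) = wt x := by
  unfold wt; exact Equiv.sum_comp e (fun i => (x i).val)

lemma wt_add_E {x : ι → ZMod 2} {k l : ι} (h : x k ≠ x l) : wt (x + E k l) = wt x := by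
  rw [add_E_eq_swap h, wt_comp]

omit [Fintype ι] in
lemma E_apply_of_ne {i j k : ι} (h1 : k ≠ i) (h2 : k ≠ j) : E i j k = 0 := by
  simp [E, h1, h2]

omit [Fintype ι] in
lemma E_apply_left {i j : ι} (h : i ≠ j) : E i j i = 1 := by
  simp [E, h]

omit [Fintype ι] in
lemma E_apply_right {i j : ι} (h : i ≠ j) : E i j j = 1 := by
  rw [E_comm]; exact E_apply_left h.symm

omit [DecidableEq ι] in
lemma exists_diff {x y : ι → ZMod 2} (hw : wt x = wt y) (hne : x ≠ y) : ∃ k, x k = 1 ∧ y k = 0 := by
  by_contra hcon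
  push Not at hcon
  have hle : ∀ i ∈ (univ : Finset ι), (x i).val ≤ (y i).val := by
    intro i _
    rcases zmod_cases (x i) with h | h
    · rw [h]; simp
    · rcases zmod_cases (y i) with h' | h'
      · exact absurd h' (hcon i h)
      · rw [h, h']
  have h2 := (sum_eq_sum_iff_of_le hle).1 hw
  apply hne
  ext i
  exact ZMod.val_injective 2 (h2 i (mem_univ i))

lemma conn {α : Type*} (F : (ι → ZMod 2) → α) (w : ℕ) (I : Finset ι) (y : ι → ZMod 2)
    (hy : wt y = w)
    (hF : ∀ x, wt x = w → (∀ i ∈ I, x i = y i) → ∀ k l, k ∉ I → l ∉ I → x k = 1 → x l = 0 →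
      F (x + E k l) = F x) :
    ∀ x, wt x = w → (∀ i ∈ I, x i = y i) → F x = F y := by
  intro x
  induction h : #{i | x i ≠ y i} using Nat.strong_induction_on generalizing x with
  | _ n ih =>
    intro hx hI
    by_cases hxy : x = y
    · rw [hxy]
    obtain ⟨k, hk1, hk2⟩ := exists_diff (hx.trans hy.symm) hxy
    obtain ⟨l, hl1, hl2⟩ := exists_diff (hy.trans hx.symm) (Ne.symm hxy)
    have hkl : k ≠ l := by
      rintro rfl
      rw [hk1] at hl2
      exact absurd hl2 (by decide)
    have hkI : k ∉ I := by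
      intro hk
      have := hI k hk
      rw [hk1, hk2] at this
      exact absurd this (by decide)
    have hlI : l ∉ I := by
      intro hl
      have := hI l hl
      rw [hl1, hl2] at this
      exact absurd this (by decide)
    have hne : x k ≠ x l := by rw [hk1, hl2]; decide
    have hval : ∀ i, i ≠ k → i ≠ l → (x + E k l) i = x i := by
      intro i h1 h2
      rw [Pi.add_apply, E_apply_of_ne h1 h2, add_zero]
    have hxk : (x + E k l) k = y k := by
      rw [Pi.add_apply, E_apply_left hkl, hk1, hk2]; decide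
    have hxl : (x + E k l) l = y l := by
      rw [Pi.add_apply, E_apply_right hkl, hl1, hl2]; decide
    rw [← hF x hx hI k l hkI hlI hk1 hl2]
    refine ih _ ?_ _ rfl ((wt_add_E hne).trans hx) ?_
    · rw [← h]
      apply card_lt_card
      rw [ssubset_iff_of_subset]
      · refine ⟨k, ?_, ?_⟩
        · rw [mem_filter]; refine ⟨mem_univ _, ?_⟩; rw [hk1, hk2]; decide
        · rw [mem_filter]; push Not; intro _; exact hxk
      · intro i hi
        rw [mem_filter] at hi ⊢
        refine ⟨mem_univ _, ?_⟩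
        by_cases h1 : i = k
        · subst h1; exact absurd hxk hi.2
        · by_cases h2 : i = l
          · subst h2; exact absurd hxl hi.2
          · rw [← hval i h1 h2]; exact hi.2
    · intro i hi
      have h1 : i ≠ k := by rintro rfl; exact hkI hi
      have h2 : i ≠ l := by rintro rfl; exact hlI hi
      rw [hval i h1 h2]
      exact hI i hi

/-- Disjoint transpositions do not interact. -/
def Swap2 (g : (ι → ZMod 2) → ZMod 2) : Prop :=
  ∀ x i j k l, i ≠ j → k ≠ l → i ≠ k → i ≠ l → j ≠ k → j ≠ l → x i ≠ x j → x k ≠ x l →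
    g x + g (x + E i j) + g (x + E k l) + g (x + E i j + E k l) = 0

omit [Fintype ι] [DecidableEq ι] in
lemma four {a b c d : ZMod 2} (h : a + b + c + d = 0) : c + d = a + b := by
  revert a b c d; decide

lemma indep {g : (ι → ZMod 2) → ZMod 2} (hg : Swap2 g) (w : ℕ) {i j : ι} (hij : i ≠ j)
    (x y : ι → ZMod 2) (hx : wt x = w) (hy : wt y = w) (hxij : x i ≠ x j) (hyij : y i ≠ y j) :
    g x + g (x + E i j) = g y + g (y + E i j) := by
  have key : ∀ x y : ι → ZMod 2, wt x = w → wt y = w → x i ≠ x j → y i ≠ y j → x i = y i →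
      g x + g (x + E i j) = g y + g (y + E i j) := by
    intro x y hx hy hxij hyij hxy
    have hxyj : x j = y j := by
      have h1 := zmod_ne _ _ hxij
      have h2 := zmod_ne _ _ hyij
      rw [← h1, ← h2, hxy]
    refine conn (fun x => g x + g (x + E i j)) w {i, j} y hy ?_ x hx ?_
    · intro z hz hzI k l hk hl hzk hzl
      simp only [mem_insert, mem_singleton, not_or] at hk hl
      have hzi := hzI i (by simp)
      have hzj := hzI j (by simp)
      have hkl : z k ≠ z l := by rw [hzk, hzl]; decide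
      have hkl' : k ≠ l := by rintro rfl; exact hkl rfl
      have h := hg z i j k l hij hkl' (Ne.symm hk.1) (Ne.symm hl.1) (Ne.symm hk.2) (Ne.symm hl.2)
        (by rw [hzi, hzj]; exact hyij) hkl
      have h2 := four h
      show g (z + E k l) + g (z + E k l + E i j) = g z + g (z + E i j)
      rw [← h2, add_right_comm z]
    · intro a ha
      simp only [mem_insert, mem_singleton] at ha
      rcases ha with rfl | rfl
      · exact hxy
      · exact hxyj
  by_cases hxy : x i = y i
  · exact key x y hx hy hxij hyij hxy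
  · have hy' : wt (y + E i j) = w := (wt_add_E hyij).trans hy
    have e1 : (y + E i j) i = y i + 1 := by rw [Pi.add_apply, E_apply_left hij]
    have e2 : (y + E i j) j = y j + 1 := by rw [Pi.add_apply, E_apply_right hij]
    have h := key x (y + E i j) hx hy' hxij (by rw [e1, e2]; simpa using hyij)
      (by rw [e1]; exact (zmod_ne _ _ (Ne.symm hxy)).symm)
    rw [h, add_assoc y, add_self, add_zero, add_comm]

lemma wt_indicator (S : Finset ι) : wt (fun i => if i ∈ S then (1 : ZMod 2) else 0) = #S := by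
  unfold wt
  have : ∀ i : ι, ((if i ∈ S then (1 : ZMod 2) else 0) : ZMod 2).val = if i ∈ S then 1 else 0 := by
    intro i; split_ifs <;> rfl
  simp only [this]
  simp

lemma exists_vec (w : ℕ) (i : ι) (J : Finset ι) (hi : i ∉ J) (hw : 1 ≤ w)
    (hw2 : w + #J ≤ Fintype.card ι) :
    ∃ x : ι → ZMod 2, wt x = w ∧ x i = 1 ∧ ∀ j ∈ J, x j = 0 := by
  obtain ⟨S, h1, h2, h3⟩ := exists_subsuperset_card_eq (s := {i}) (t := Jᶜ) (n := w)
    (by simpa using hi) (by simpa using hw) (by rw [card_compl]; omega)
  refine ⟨fun i => if i ∈ S then 1 else 0, by rw [wt_indicator, h3], ?_, ?_⟩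
  · show (if i ∈ S then (1 : ZMod 2) else 0) = 1
    rw [if_pos]; exact h1 (mem_singleton_self i)
  · intro j hj
    show (if j ∈ S then (1 : ZMod 2) else 0) = 0
    rw [if_neg]
    intro hjS
    have := h2 hjS
    rw [mem_compl] at this
    exact this hj

/-- **Affinity on slices.** -/
lemma affine_slice {g : (ι → ZMod 2) → ZMod 2} (hg : Swap2 g) (w : ℕ) (hw : 1 ≤ w)
    (hw2 : w + 2 ≤ Fintype.card ι) :
    ∃ (b : ι → ZMod 2) (c : ZMod 2), ∀ x, wt x = w → g x = dot b x + c := by
  have hne : Nonempty ι := by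
    rw [← Fintype.card_pos_iff]; omega
  obtain ⟨i0⟩ := hne
  have hex : ∀ i, i ≠ i0 → ∃ x : ι → ZMod 2, wt x = w ∧ x i = 1 ∧ ∀ j ∈ ({i0} : Finset ι), x j = 0 :=
    fun i hi => exists_vec w i {i0} (by simpa using hi) hw (by simp; omega)
  choose X hX1 hX2 hX3 using hex
  have hX4 : ∀ i (hi : i ≠ i0), X i hi i ≠ X i hi i0 := by
    intro i hi; rw [hX2, hX3 i hi i0 (by simp)]; decide
  let b : ι → ZMod 2 := fun i => if hi : i = i0 then 0 else g (X i hi) + g (X i hi + E i i0)
  have hb0 : b i0 = 0 := by simp [b]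
  have hb1 : ∀ i, i ≠ i0 → ∀ x, wt x = w → x i ≠ x i0 → g x + g (x + E i i0) = b i := by
    intro i hi x hx hx2
    have : b i = g (X i hi) + g (X i hi + E i i0) := by simp only [b]; rw [dif_neg hi]
    rw [this]
    exact indep hg w hi x _ hx (hX1 i hi) hx2 (hX4 i hi)
  have hd : ∀ i j, i ≠ j → ∀ x, wt x = w → x i ≠ x j → g x + g (x + E i j) = b i + b j := by
    intro i j hij x hx hxij
    by_cases hj : j = i0
    · subst hj; rw [hb0, add_zero]; exact hb1 i hij x hx hxij
    by_cases hi : i = i0
    · subst hi; rw [hb0, zero_add, E_comm]; exact hb1 j hj x hx (Ne.symm hxij)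
    obtain ⟨y, hy1, hy2, hy3⟩ := exists_vec w i {j, i0} (by simp [hij, hi]) hw
      (by have := card_le_two (a := j) (b := i0); omega)
    have hyj := hy3 j (by simp)
    have hy0 := hy3 i0 (by simp)
    have hyij : y i ≠ y j := by rw [hy2, hyj]; decide
    have hyi0 : y i ≠ y i0 := by rw [hy2, hy0]; decide
    have e1 := hb1 i hi y hy1 hyi0
    have hz : wt (y + E i j) = w := (wt_add_E hyij).trans hy1
    have hzj : (y + E i j) j = 1 := by rw [Pi.add_apply, E_apply_right hij, hyj]; decide
    have hz0 : (y + E i j) i0 = 0 := by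
      rw [Pi.add_apply, E_apply_of_ne (Ne.symm hi) (Ne.symm hj), hy0]; decide
    have e2 := hb1 j hj (y + E i j) hz (by rw [hzj, hz0]; decide)
    have e3 : y + E i j + E j i0 = y + E i i0 := by
      rw [add_assoc]; congr 1
      unfold E
      rw [add_assoc, ← add_assoc (Pi.single j 1), add_self, zero_add]
    rw [e3] at e2
    rw [indep hg w hij x y hx hy1 hxij hyij, ← e1, ← e2]
    have : ∀ a b c : ZMod 2, a + b = (a + c) + (b + c) := by decide
    exact this _ _ _
  obtain ⟨y, hy, -, -⟩ := exists_vec w i0 ∅ (by simp) hw (by simp; omega)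
  refine ⟨b, g y + dot b y, fun x hx => ?_⟩
  have h := conn (fun x => g x + dot b x) w ∅ y hy (by
    intro z hz _ k l _ _ hk hl
    have hkl : z k ≠ z l := by rw [hk, hl]; decide
    have hkl' : k ≠ l := by rintro rfl; exact hkl rfl
    have h1 := hd k l hkl' z hz hkl
    show g (z + E k l) + dot b (z + E k l) = g z + dot b z
    rw [dot_add]
    have h2 : dot b (E k l) = b k + b l := by
      unfold E; rw [dot_add, dot_single, dot_single]
    rw [h2, ← h1]
    have : ∀ a b c : ZMod 2, b + (c + (a + b)) = a + c := by decide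
    exact this _ _ _) x hx (by simp)
  rw [← h]
  have : ∀ a b : ZMod 2, a = b + (a + b) := by decide
  exact this _ _

end Pool.Agent.X115.KB
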