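import Mathlib
import Pool.Agent.X115.KB.A

/-!
# Bent functions which are affine on the slices, part 2

The classification.
-/

set_option autoImplicit false

open Finset

namespace Pool.Agent.X115.KB

variable {ι : Type*} [Fintype ι] [DecidableEq ι]

/-- bent functions of `2 m` variables -/
def Bent (m : ℕ) (g : (ι → ZMod 2) → ZMod 2) : Prop :=
  ∀ y, (∑ x : ι → ZMod 2, sgn (g x + dot x y)) ^ 2 = 4 ^ m

/-- the vector with the two halves `p` and `q` -/
def vec {m : ℕ} (e : Fin m ⊕ Fin m ≃ ι) (p q : Fin m → ZMod 2) : ι → ZMod 2 :=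
  fun i => Sum.elim p q (e.symm i)

omit [DecidableEq ι] in
lemma sum_vec {m : ℕ} (e : Fin m ⊕ Fin m ≃ ι) [DecidableEq ι] (F : (ι → ZMod 2) → ℤ) :
    ∑ x : ι → ZMod 2, F x = ∑ p : Fin m → ZMod 2, ∑ q : Fin m → ZMod 2, F (vec e p q) := by
  rw [← Fintype.sum_prod_type']
  let T : (Fin m → ZMod 2) × (Fin m → ZMod 2) ≃ (ι → ZMod 2) :=
    (Equiv.sumArrowEquivProdArrow (Fin m) (Fin m) (ZMod 2)).symm.trans
      (Equiv.arrowCongr e (Equiv.refl _))
  rw [← Equiv.sum_comp T F]
  rfl

omit [DecidableEq ι] in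
lemma dot_vec {m : ℕ} (e : Fin m ⊕ Fin m ≃ ι) (p q a b : Fin m → ZMod 2) :
    dot (vec e p q) (vec e a b) = dot p a + dot q b := by
  unfold dot vec
  rw [← Equiv.sum_comp e, Fintype.sum_sum_type]
  simp

omit [DecidableEq ι] in
lemma wt_vec {m : ℕ} (e : Fin m ⊕ Fin m ≃ ι) (p q : Fin m → ZMod 2) :
    wt (vec e p q) = ∑ k, ((p k).val + (q k).val) := by
  unfold wt vec
  rw [← Equiv.sum_comp e, Fintype.sum_sum_type, sum_add_distrib]
  simp

lemma card_fun (m : ℕ) : Fintype.card (Fin m → ZMod 2) = 2 ^ m := by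
  simp [ZMod.card]

lemma coset {m : ℕ} {g : (ι → ZMod 2) → ZMod 2} (hg : Bent m g) (e : Fin m ⊕ Fin m ≃ ι)
    (b : ι → ZMod 2) (u0 u : Fin m → ZMod 2) (c : ZMod 2)
    (h0 : ∀ p, g (vec e p (p + u0)) + dot b (vec e p (p + u0)) = c) (hu : u ≠ u0) :
    ∑ p, sgn (g (vec e p (p + u)) + dot b (vec e p (p + u))) = 0 := by
  set S : (Fin m → ZMod 2) → ℤ := fun u => ∑ p, sgn (g (vec e p (p + u)) + dot b (vec e p (p + u)))
    with hS
  have hW : ∀ a : Fin m → ZMod 2, (∑ u, sgn (dot a u) * S u) ^ 2 = 4 ^ m := by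
    intro a
    rw [← hg (b + vec e a a)]
    congr 1
    rw [sum_vec e]
    simp only [hS, mul_sum]
    rw [sum_comm]
    refine sum_congr rfl fun p _ => ?_
    rw [← Equiv.sum_comp (Equiv.addLeft p)]
    refine sum_congr rfl fun q _ => ?_
    rw [Equiv.coe_addLeft, ← add_assoc p p q, add_self, zero_add, dot_add (vec e p q), dot_vec,
      dot_comm (vec e p q) b, dot_add a, dot_comm p a, dot_comm q a, sgn_add, sgn_add, sgn_add,
      sgn_add, sgn_add]
    ring
  have h1 := corr S 0
  simp only [hW, dot_zero, sgn_zero, one_mul, add_zero] at h1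
  rw [sum_const, nsmul_eq_mul, card_univ, card_fun] at h1
  have h2 : ∑ u, S u * S u = 4 ^ m := by
    have : ((2 ^ m : ℕ) : ℤ) ≠ 0 := by positivity
    exact (mul_left_cancel₀ this h1).symm
  have h3 : S u0 * S u0 = 4 ^ m := by
    have : S u0 = 2 ^ m * sgn c := by
      simp only [hS, h0]
      rw [sum_const, nsmul_eq_mul, card_univ, card_fun]
      push_cast
      ring
    rw [this]
    have e1 := sgn_mul_self c
    have e2 : (4 : ℤ) ^ m = 2 ^ m * 2 ^ m := by rw [← mul_pow]; norm_num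
    rw [e2]
    linear_combination (2 ^ m * 2 ^ m) * e1
  have h4 : S u0 * S u0 + S u * S u ≤ ∑ u, S u * S u := by
    rw [← sum_pair (f := fun u => S u * S u) (Ne.symm hu)]
    exact sum_le_sum_of_subset_of_nonneg (subset_univ _) fun i _ _ => mul_self_nonneg _
  have h5 : S u * S u ≤ 0 := by linarith
  have h6 : S u * S u = 0 := le_antisymm h5 (mul_self_nonneg _)
  exact mul_self_eq_zero.1 h6

lemma autocorr {m : ℕ} {g : (ι → ZMod 2) → ZMod 2} (hg : Bent m g) (v : ι → ZMod 2) (hv : v ≠ 0) :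
    ∑ x, sgn (g x) * sgn (g (x + v)) = 0 := by
  have h1 := corr (fun x => sgn (g x)) v
  have h2 : ∀ a : ι → ZMod 2, (∑ u, sgn (dot a u) * sgn (g u)) ^ 2 = 4 ^ m := by
    intro a
    rw [← hg a]
    congr 1
    refine sum_congr rfl fun x _ => ?_
    rw [sgn_add, dot_comm a x, mul_comm]
  simp only [h2] at h1
  rw [← sum_mul, sum_sgn_dot v hv, zero_mul] at h1
  have : (Fintype.card (ι → ZMod 2) : ℤ) ≠ 0 := by
    have : 0 < Fintype.card (ι → ZMod 2) := Fintype.card_pos
    positivity
  exact (mul_eq_zero.1 h1.symm).resolve_left this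

/-- the indicator of the complement of `Z` -/
def uZ {m : ℕ} (Z : Finset (Fin m)) : Fin m → ZMod 2 := fun k => if k ∈ Z then 0 else 1

lemma val_add_one : ∀ a : ZMod 2, a.val + (a + 1).val = 1 := by decide

omit [DecidableEq ι] in
lemma wt_coset {m : ℕ} (e : Fin m ⊕ Fin m ≃ ι) (Z : Finset (Fin m)) (p : Fin m → ZMod 2) :
    wt (vec e p (p + uZ Z)) + #Z = 2 * ∑ k ∈ Z, (p k).val + m := by
  rw [wt_vec]
  have h1 : ∀ k : Fin m, (p k).val + ((p + uZ Z) k).val =
      if k ∈ Z then 2 * (p k).val else 1 := by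
    intro k
    by_cases hk : k ∈ Z
    · rw [if_pos hk, Pi.add_apply, uZ, if_pos hk, add_zero]; ring
    · rw [if_neg hk, Pi.add_apply, uZ, if_neg hk, val_add_one]
  simp only [h1]
  rw [sum_ite, sum_const, smul_eq_mul, mul_one, ← mul_sum]
  have h2 : univ.filter (fun k => k ∈ Z) = Z := by ext; simp
  have h3 : univ.filter (fun k => k ∉ Z) = Zᶜ := by ext; simp
  rw [h2, h3, card_compl, Fintype.card_fin]
  have h4 : #Z ≤ m := by simpa using card_le_univ Z
  omega

/-- **The step.** -/
lemma step {m : ℕ} {g Q : (ι → ZMod 2) → ZMod 2} (e : Fin m ⊕ Fin m ≃ ι) (Z : Finset (Fin m))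
    (b : ι → ZMod 2) (c : ZMod 2) (l : Fin m → ZMod 2) (hl : l ≠ 0) (hl1 : ∑ k, l k = 0)
    (hlZ : ∀ k, k ∉ Z → l k = 0)
    (hQ : ∀ p, Q (vec e p (p + uZ Z)) + dot b (vec e p (p + uZ Z)) = c + dot l p)
    (hS : ∑ p, sgn (g (vec e p (p + uZ Z)) + dot b (vec e p (p + uZ Z))) = 0)
    (hin : ∀ p, (¬ ∀ k ∈ Z, p k = 0) → (¬ ∀ k ∈ Z, p k = 1) →
      g (vec e p (p + uZ Z)) = Q (vec e p (p + uZ Z))) (p : Fin m → ZMod 2) :
    g (vec e p (p + uZ Z)) = Q (vec e p (p + uZ Z)) := by
  set X : (Fin m → ZMod 2) → (ι → ZMod 2) := fun p => vec e p (p + uZ Z) with hX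
  have h1 : ∀ p, sgn (Q (X p) + dot b (X p)) - sgn (g (X p) + dot b (X p)) =
      sgn c * (1 - sgn (g (X p)) * sgn (Q (X p))) := by
    intro p
    by_cases hp0 : ∀ k ∈ Z, p k = 0
    · have hd : dot l p = 0 := by
        unfold dot
        apply sum_eq_zero
        intro k _
        by_cases hk : k ∈ Z
        · rw [hp0 k hk, mul_zero]
        · rw [hlZ k hk, zero_mul]
      have h2 := hQ p
      rw [hd, add_zero] at h2
      have h2' : sgn (Q (X p)) * sgn (dot b (X p)) = sgn c := by rw [← sgn_add]; exact congrArg _ h2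
      rw [sgn_add, sgn_add, ← h2']
      linear_combination (sgn (g (X p)) * sgn (dot b (X p))) * sgn_mul_self (Q (X p))
    · by_cases hp1 : ∀ k ∈ Z, p k = 1
      · have hd : dot l p = 0 := by
          rw [← hl1]
          unfold dot
          apply sum_congr rfl
          intro k _
          by_cases hk : k ∈ Z
          · rw [hp1 k hk, mul_one]
          · rw [hlZ k hk, zero_mul]
        have h2 := hQ p
        rw [hd, add_zero] at h2
        have h2' : sgn (Q (X p)) * sgn (dot b (X p)) = sgn c := by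
          rw [← sgn_add]; exact congrArg _ h2
        rw [sgn_add, sgn_add, ← h2']
        linear_combination (sgn (g (X p)) * sgn (dot b (X p))) * sgn_mul_self (Q (X p))
      · have := hin p hp0 hp1
        simp only [hX]
        rw [this, sgn_mul_self]
        ring
  have h2 : ∑ p, sgn (Q (X p) + dot b (X p)) = 0 := by
    have : ∀ p, sgn (Q (X p) + dot b (X p)) = sgn c * sgn (dot p l) := by
      intro p
      simp only [hX]
      rw [hQ, sgn_add, dot_comm l p]
    simp only [this]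
    rw [← mul_sum, sum_sgn_dot l hl, mul_zero]
  have h3 : ∑ p, (sgn (Q (X p) + dot b (X p)) - sgn (g (X p) + dot b (X p))) = 0 := by
    rw [sum_sub_distrib, h2, hS, sub_zero]
  simp only [h1] at h3
  rw [← mul_sum] at h3
  have h4 : ∑ p, (1 - sgn (g (X p)) * sgn (Q (X p))) = 0 := by
    rcases mul_eq_zero.1 h3 with h | h
    · rcases sgn_eq c with h' | h' <;> rw [h'] at h <;> norm_num at h
    · exact h
  have h5 := (sum_eq_zero_iff_of_nonneg (fun p _ => sgn_le (g (X p)) (Q (X p)))).1 h4 p (mem_univ p)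
  apply sgn_inj
  have e1 := sgn_mul_self (Q (X p))
  have h6 : sgn (g (X p)) * sgn (Q (X p)) = 1 := by linarith
  calc sgn (g (X p)) = (sgn (g (X p)) * sgn (Q (X p))) * sgn (Q (X p)) := by
        rw [mul_assoc, e1, mul_one]
    _ = sgn (Q (X p)) := by rw [h6, one_mul]

omit [DecidableEq ι] in
lemma card_filter_one (x : ι → ZMod 2) : #{i | x i = 1} = wt x := by
  unfold wt
  rw [card_filter]
  refine sum_congr rfl fun i _ => ?_
  rcases zmod_cases (x i) with h | h <;> rw [h] <;> decide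

omit [DecidableEq ι] in
lemma exists_equiv {κ : Type*} [Fintype κ] (x : ι → ZMod 2) (y : κ → ZMod 2)
    (hcard : Fintype.card κ = Fintype.card ι) (hw : ∑ k, (y k).val = wt x) :
    ∃ e : κ ≃ ι, ∀ k, x (e k) = y k := by
  have h1 : #{i | x i = 1} = #{k | y k = 1} := by
    rw [card_filter_one x, card_filter_one y]; exact hw.symm
  have h0 : #{i | x i = 0} = #{k | y k = 0} := by
    have e1 := card_filter_add_card_filter_not (s := (univ : Finset ι)) (fun i => x i = 1)
    have e2 := card_filter_add_card_filter_not (s := (univ : Finset κ)) (fun i => y i = 1)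
    have e3 : univ.filter (fun i => ¬ x i = 1) = univ.filter (fun i => x i = 0) := by
      ext i
      simp only [mem_filter, mem_univ, true_and]
      rcases zmod_cases (x i) with h | h <;> rw [h] <;> decide
    have e4 : univ.filter (fun i => ¬ y i = 1) = univ.filter (fun i => y i = 0) := by
      ext i
      simp only [mem_filter, mem_univ, true_and]
      rcases zmod_cases (y i) with h | h <;> rw [h] <;> decide
    rw [e3] at e1
    rw [e4] at e2
    rw [card_univ] at e1 e2
    omega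
  have hc : ∀ c : ZMod 2, Nonempty ({a // y a = c} ≃ {b // x b = c}) := by
    intro c
    rw [← Fintype.card_eq, Fintype.card_subtype, Fintype.card_subtype]
    rcases zmod_cases c with h | h
    · subst h; exact h0.symm
    · subst h; exact h1.symm
  exact ⟨Equiv.ofFiberEquiv fun c => (hc c).some, fun k => Equiv.ofFiberEquiv_map _ k⟩

end Pool.Agent.X115.KB
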