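import Mathlib
import Pool.Agent.X115.KB.B

/-!
# Bent functions which are affine on the slices, part 3

The classification.
-/

set_option autoImplicit false

open Finset

namespace Pool.Agent.X115.KB

variable {ι : Type*} [Fintype ι] [DecidableEq ι]

/-- the function which is affine on both parity classes up to half of the weight -/
def Q (m : ℕ) (b0 b1 : ι → ZMod 2) (c0 c1 : ZMod 2) (x : ι → ZMod 2) : ZMod 2 :=
  if Even (wt x + m) then dot b0 x + c0 + (((wt x + m) / 2 : ℕ) : ZMod 2)
  else dot b1 x + c1 + (((wt x + m) / 2 : ℕ) : ZMod 2)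

lemma cast_sum_val {m : ℕ} (Z : Finset (Fin m)) (p : Fin m → ZMod 2) :
    ((∑ k ∈ Z, (p k).val : ℕ) : ZMod 2) = ∑ k ∈ Z, p k := by
  push_cast
  exact sum_congr rfl fun k _ => by simp

lemma dot_ind {m : ℕ} (Z : Finset (Fin m)) (p : Fin m → ZMod 2) :
    dot (fun k => if k ∈ Z then 1 else 0) p = ∑ k ∈ Z, p k := by
  unfold dot
  simp

lemma sum_val_le {m : ℕ} (Z : Finset (Fin m)) (p : Fin m → ZMod 2) : ∑ k ∈ Z, (p k).val ≤ #Z := by
  have : ∀ k ∈ Z, (p k).val ≤ 1 := fun k _ => by
    have := ZMod.val_lt (p k); omega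
  have := sum_le_sum this
  simpa using this

lemma sum_val_pos {m : ℕ} (Z : Finset (Fin m)) (p : Fin m → ZMod 2) (h : ¬ ∀ k ∈ Z, p k = 0) :
    0 < ∑ k ∈ Z, (p k).val := by
  by_contra hcon
  apply h
  intro k hk
  have h1 : ∑ k ∈ Z, (p k).val = 0 := by omega
  rw [sum_eq_zero_iff] at h1
  exact (ZMod.val_eq_zero _).1 (h1 k hk)

lemma sum_val_lt {m : ℕ} (Z : Finset (Fin m)) (p : Fin m → ZMod 2) (h : ¬ ∀ k ∈ Z, p k = 1) :
    ∑ k ∈ Z, (p k).val < #Z := by
  by_contra hcon
  apply h
  have h0 := sum_val_le Z p
  have h1 : ∑ k ∈ Z, (p k).val = ∑ k ∈ Z, 1 := by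
    rw [sum_const, smul_eq_mul, mul_one]; omega
  have h2 := (sum_eq_sum_iff_of_le (f := fun k => (p k).val) (g := fun _ => 1) (fun k _ => by
    have := ZMod.val_lt (p k); omega)).1 h1
  intro k hk
  have h3 : (p k).val = 1 := h2 k hk
  exact ZMod.val_injective 2 (by rw [h3]; rfl)

/-- parametrisation of a given vector -/
lemma exists_param {m : ℕ} (hcard : Fintype.card ι = 2 * m) (x : ι → ZMod 2) (z : ℕ) (hz : z ≤ m)
    (hx : wt x + z = m ∨ wt x = m + z) :
    ∃ (e : Fin m ⊕ Fin m ≃ ι) (Z : Finset (Fin m)) (p : Fin m → ZMod 2), #Z = z ∧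
      x = vec e p (p + uZ Z) := by
  obtain ⟨Z, -, hZ⟩ := exists_subset_card_eq (s := (univ : Finset (Fin m))) (n := z) (by simpa using hz)
  have hk : Fintype.card (Fin m ⊕ Fin m) = Fintype.card ι := by rw [hcard]; simp; ring
  have key : ∀ p : Fin m → ZMod 2, wt (vec (ι := Fin m ⊕ Fin m) (Equiv.refl _) p (p + uZ Z)) = wt x →
      ∃ e : Fin m ⊕ Fin m ≃ ι, x = vec e p (p + uZ Z) := by
    intro p hp
    obtain ⟨e, he⟩ := exists_equiv x (Sum.elim p (p + uZ Z)) hk hp
    refine ⟨e, funext fun i => ?_⟩
    have := he (e.symm i)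
    rw [Equiv.apply_symm_apply] at this
    exact this
  rcases hx with h | h
  · obtain ⟨e, he⟩ := key 0 (by
      have := wt_coset (Equiv.refl (Fin m ⊕ Fin m)) Z (0 : Fin m → ZMod 2)
      simp only [Pi.zero_apply, ZMod.val_zero, sum_const_zero, mul_zero, zero_add] at this
      rw [zero_add]
      omega)
    exact ⟨e, Z, 0, hZ, he⟩
  · obtain ⟨e, he⟩ := key 1 (by
      have := wt_coset (Equiv.refl (Fin m ⊕ Fin m)) Z (1 : Fin m → ZMod 2)
      have h1 : ∑ k ∈ Z, ((1 : Fin m → ZMod 2) k).val = #Z := by
        rw [card_eq_sum_ones]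
        exact sum_congr rfl fun k _ => rfl
      rw [h1] at this
      omega)
    exact ⟨e, Z, 1, hZ, he⟩

omit [DecidableEq ι] in
lemma wt_add_one (x : ι → ZMod 2) : wt (x + 1) + wt x = Fintype.card ι := by
  unfold wt
  rw [← sum_add_distrib, ← card_univ, card_eq_sum_ones]
  refine sum_congr rfl fun i _ => ?_
  rw [Pi.add_apply, Pi.one_apply, add_comm, val_add_one]

omit [DecidableEq ι] in
lemma dot_one (x : ι → ZMod 2) : dot x 1 = ∑ i, x i := by
  unfold dot; simp

omit [DecidableEq ι] in
lemma cast_wt (x : ι → ZMod 2) : ((wt x : ℕ) : ZMod 2) = dot x 1 := by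
  rw [dot_one]
  unfold wt
  push_cast
  exact sum_congr rfl fun k _ => by simp

/-- **Classification of the bent functions which are affine on the two middle slices.** -/
theorem classify {m : ℕ} (hm : 2 ≤ m) (hcard : Fintype.card ι = 2 * m)
    {g : (ι → ZMod 2) → ZMod 2} (hg : Bent m g) (hs : Swap2 g) :
    ∃ (b0 b1 : ι → ZMod 2) (c0 c1 : ZMod 2), ∑ i, b0 i = ∑ i, b1 i ∧
      ∀ x, g x = Q m b0 b1 c0 c1 x := by
  obtain ⟨b0, c0, h0⟩ := affine_slice hs m (by omega) (by omega)
  obtain ⟨b1, c1, h1⟩ := affine_slice hs (m - 1) (by omega) (by omega)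
  set C0 : ZMod 2 := c0 + (m : ZMod 2) with hC0
  set C1 : ZMod 2 := c1 + ((m - 1 : ℕ) : ZMod 2) with hC1
  have z2 : ∀ a b : ZMod 2, a + b + b = a := by decide
  -- the middle slice
  have hmid : ∀ x, wt x = m → g x = Q m b0 b1 C0 C1 x := by
    intro x hx
    unfold Q
    rw [hx, if_pos (by exact ⟨m, rfl⟩), h0 x hx, hC0, ← add_assoc, show (m + m) / 2 = m by omega, z2]
  have hlow : ∀ x, wt x = m - 1 → g x = Q m b0 b1 C0 C1 x := by
    intro x hx
    unfold Q
    rw [hx, if_neg (by rw [Nat.not_even_iff_odd]; exact ⟨m - 1, by omega⟩), h1 x hx, hC1,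
      ← add_assoc, show (m - 1 + m) / 2 = m - 1 by omega, z2]
  -- the even slices
  have heven : ∀ z x, Even (wt x + m) → (wt x + z = m ∨ wt x = m + z) →
      g x = Q m b0 b1 C0 C1 x := by
    intro z
    induction z using Nat.strong_induction_on with
    | _ z ih =>
      intro x hx hxz
      rcases Nat.eq_zero_or_pos z with hz | hz
      · exact hmid x (by omega)
      have hz2 : Even z := by
        rcases hxz with h | h
        · have : wt x + m = 2 * wt x + z := by omega
          rw [this] at hx
          exact (Nat.even_add.1 hx).1 (by simp)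
        · have : wt x + m = 2 * m + z := by omega
          rw [this] at hx
          exact (Nat.even_add.1 hx).1 (by simp)
      have hzm : z ≤ m := by
        rcases hxz with h | h
        · omega
        · have : wt x ≤ 2 * m := by
            rw [← hcard, ← card_filter_one]; exact card_le_univ _
          omega
      obtain ⟨e, Z, p, hZ, rfl⟩ := exists_param hcard x z hzm hxz
      obtain ⟨z', hz'⟩ := hz2
      have hwt : ∀ p : Fin m → ZMod 2, wt (vec e p (p + uZ Z)) + z = 2 * ∑ k ∈ Z, (p k).val + m := by
        intro p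
        have := wt_coset e Z p
        rwa [hZ] at this
      have hZne : Z.Nonempty := by rw [← card_pos]; omega
      obtain ⟨k0, hk0⟩ := hZne
      refine step e Z b0 (C0 + ((m - z' : ℕ) : ZMod 2)) (fun k => if k ∈ Z then 1 else 0) ?_ ?_ ?_
        ?_ ?_ ?_ p
      · intro h
        have := congrFun h k0
        simp [hk0] at this
      · rw [sum_boole]
        have : univ.filter (fun k => k ∈ Z) = Z := by ext; simp
        rw [this, hZ, hz']
        push_cast
        exact zmod_add_self _
      · intro k hk; simp [hk]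
      · intro p
        have h2 := hwt p
        have h3 : Even (wt (vec e p (p + uZ Z)) + m) := by
          have : wt (vec e p (p + uZ Z)) + m = 2 * (∑ k ∈ Z, (p k).val + (m - z')) := by omega
          rw [this]; exact even_two_mul _
        have h4 : (wt (vec e p (p + uZ Z)) + m) / 2 = (∑ k ∈ Z, (p k).val) + (m - z') := by omega
        unfold Q
        rw [if_pos h3, h4, dot_ind, Nat.cast_add, cast_sum_val]
        have : ∀ a b c d : ZMod 2, a + b + (c + d) + a = b + d + c := by decide
        exact this _ _ _ _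
      · refine coset hg e b0 (uZ ∅) (uZ Z) (C0 + (m : ZMod 2)) ?_ ?_
        · intro p
          have h2 : wt (vec e p (p + uZ ∅)) = m := by
            have := wt_coset e ∅ p
            simpa using this
          rw [h0 _ h2]
          have e0 : C0 + (m : ZMod 2) = c0 := by rw [hC0, z2]
          rw [e0]
          have : ∀ a b : ZMod 2, a + b + a = b := by decide
          exact this _ _
        · intro h
          have := congrFun h k0
          simp [uZ, hk0] at this
      · intro q hq0 hq1
        have h2 := hwt q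
        have h3 := sum_val_pos Z q hq0
        have h4 := sum_val_lt Z q hq1
        rw [hZ] at h4
        have h5 : Even (wt (vec e q (q + uZ Z)) + m) := by
          have : wt (vec e q (q + uZ Z)) + m = 2 * (∑ k ∈ Z, (q k).val + (m - z')) := by omega
          rw [this]; exact even_two_mul _
        rcases Nat.lt_or_ge (wt (vec e q (q + uZ Z))) m with h6 | h6
        · exact ih (m - wt (vec e q (q + uZ Z))) (by omega) _ h5 (Or.inl (by omega))
        · exact ih (wt (vec e q (q + uZ Z)) - m) (by omega) _ h5 (Or.inr (by omega))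
  have heven' : ∀ x, Even (wt x + m) → g x = Q m b0 b1 C0 C1 x := by
    intro x hx
    rcases Nat.lt_or_ge (wt x) m with h | h
    · exact heven (m - wt x) x hx (Or.inl (by omega))
    · exact heven (wt x - m) x hx (Or.inr (by omega))
  -- complements
  have hcomp : ∀ x, ¬ Even (wt x + m) → g x + g (x + 1) = dot b0 1 + 1 := by
    have hev : ∀ x, Even (wt x + m) → g x + g (x + 1) = dot b0 1 := by
      intro x hx
      have h2 := wt_add_one x
      rw [hcard] at h2
      have hx' : Even (wt (x + 1) + m) := by
        obtain ⟨r, hr⟩ := hx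
        exact ⟨2 * m - r, by omega⟩
      rw [heven' x hx, heven' _ hx']
      unfold Q
      rw [if_pos hx, if_pos hx', dot_add]
      obtain ⟨r, hr⟩ := hx
      have e1 : (wt x + m) / 2 = r := by omega
      have e2 : (wt (x + 1) + m) / 2 = 2 * m - r := by omega
      rw [e1, e2]
      have e3 : ((r : ℕ) : ZMod 2) + ((2 * m - r : ℕ) : ZMod 2) = 0 := by
        rw [← Nat.cast_add, show r + (2 * m - r) = 2 * m by omega]
        push_cast
        rw [two_mul]; exact zmod_add_self _
      have : ∀ a b c d e : ZMod 2, d + e = 0 → a + b + d + (a + c + b + e) = c := by decide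
      exact this _ _ _ _ _ e3
    have hsum1 := autocorr hg 1 (by
      intro h
      have hne : Nonempty ι := by rw [← Fintype.card_pos_iff]; omega
      obtain ⟨i⟩ := hne
      have := congrFun h i
      exact one_ne_zero this)
    have hsum2 : ∑ x : ι → ZMod 2, sgn ((wt x + m : ℕ) : ZMod 2) = 0 := by
      have : ∀ x : ι → ZMod 2, sgn ((wt x + m : ℕ) : ZMod 2) = sgn (m : ZMod 2) * sgn (dot x 1) := by
        intro x
        rw [Nat.cast_add, cast_wt, sgn_add, mul_comm]
      simp only [this]
      rw [← mul_sum, sum_sgn_dot, mul_zero]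
      intro h
      have hne : Nonempty ι := by rw [← Fintype.card_pos_iff]; omega
      obtain ⟨i⟩ := hne
      have := congrFun h i
      exact one_ne_zero this
    have hT : ∀ x : ι → ZMod 2, 0 ≤ sgn (dot b0 1) * (sgn (g x) * sgn (g (x + 1))) -
        sgn ((wt x + m : ℕ) : ZMod 2) := by
      intro x
      by_cases hx : Even (wt x + m)
      · have e1 := hev x hx
        rw [← sgn_add, e1, sgn_mul_self]
        obtain ⟨r, hr⟩ := hx
        rw [hr]
        push_cast
        rw [zmod_add_self, sgn_zero]
        norm_num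
      · rw [Nat.not_even_iff_odd] at hx
        obtain ⟨r, hr⟩ := hx
        rw [hr]
        push_cast
        rw [two_mul, zmod_add_self, zero_add, sgn_one, ← sgn_add, ← sgn_add]
        rcases sgn_eq (dot b0 1 + (g x + g (x + 1))) with h | h <;> rw [h] <;> norm_num
    have hsum3 : ∑ x : ι → ZMod 2, (sgn (dot b0 1) * (sgn (g x) * sgn (g (x + 1))) -
        sgn ((wt x + m : ℕ) : ZMod 2)) = 0 := by
      rw [sum_sub_distrib, hsum2, ← mul_sum, hsum1]; ring
    intro x hx
    have h2 := (sum_eq_zero_iff_of_nonneg (fun x _ => hT x)).1 hsum3 x (mem_univ x)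
    rw [Nat.not_even_iff_odd] at hx
    obtain ⟨r, hr⟩ := hx
    rw [hr] at h2
    push_cast at h2
    rw [two_mul, zmod_add_self, zero_add, sgn_one, ← sgn_add, ← sgn_add] at h2
    have h3 : sgn (dot b0 1 + (g x + g (x + 1))) = -1 := by linarith
    have : ∀ a b : ZMod 2, sgn (a + b) = -1 → b = a + 1 := by decide
    exact this _ _ h3
  have hup : ∀ x, wt x = m + 1 → g x = dot b1 x + c1 + 1 + (dot b0 1 + dot b1 1) := by
    intro x hx
    have h2 := wt_add_one x
    rw [hcard] at h2
    have h3 : wt (x + 1) = m - 1 := by omega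
    have h4 := hcomp x (by rw [hx, Nat.not_even_iff_odd]; exact ⟨m, by omega⟩)
    rw [h1 _ h3, dot_add] at h4
    have : ∀ a b c d c1 : ZMod 2, a + (b + c + c1) = d + 1 → a = b + c1 + 1 + (d + c) := by decide
    exact this _ _ _ _ _ h4
  have hm1 : ((m - 1 : ℕ) : ZMod 2) + (m : ZMod 2) = 1 := by
    rw [← Nat.cast_add, show m - 1 + m = 2 * (m - 1) + 1 by omega]
    push_cast
    rw [two_mul, zmod_add_self, zero_add]
  have hδ : dot b0 1 + dot b1 1 = 0 := by
    rcases zmod_cases (dot b0 1 + dot b1 1) with h | h
    · exact h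
    exfalso
    have hup' : ∀ x, wt x = m + 1 → g x = dot b1 x + c1 := by
      intro x hx
      rw [hup x hx, h]
      have : ∀ a : ZMod 2, a + 1 + 1 = a := by decide
      exact this _
    have hk : Fintype.card (Fin m ⊕ Fin m) = Fintype.card ι := by rw [hcard]; simp; ring
    have e := Fintype.equivOfCardEq hk
    have hall : ∀ (k : Fin m) (p : Fin m → ZMod 2),
        g (vec e p (p + uZ {k})) + dot b1 (vec e p (p + uZ {k})) = c1 := by
      intro k p
      have h2 := wt_coset e {k} p
      rw [sum_singleton, card_singleton] at h2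
      have h3 := ZMod.val_lt (p k)
      have z3 : ∀ a b : ZMod 2, a + b + a = b := by decide
      rcases Nat.eq_zero_or_pos (p k).val with h4 | h4
      · rw [h1 _ (by omega), z3]
      · rw [hup' _ (by omega), z3]
    have h2 := coset hg e b1 (uZ {(⟨0, by omega⟩ : Fin m)}) (uZ {(⟨1, by omega⟩ : Fin m)}) c1
      (hall _) (by
      intro h
      have := congrFun h ⟨0, by omega⟩
      simp [uZ] at this)
    simp only [hall] at h2
    rw [sum_const, nsmul_eq_mul, card_univ, card_fun] at h2
    rcases sgn_eq c1 with h' | h' <;> rw [h'] at h2 <;> simp at h2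
  have hhigh : ∀ x, wt x = m + 1 → g x = Q m b0 b1 C0 C1 x := by
    intro x hx
    unfold Q
    rw [hup x hx, hδ, hx, if_neg (by rw [Nat.not_even_iff_odd]; exact ⟨m, by omega⟩), hC1,
      show (m + 1 + m) / 2 = m by omega]
    have : ∀ a b c c1 : ZMod 2, a + b = 1 → c + c1 + 1 + 0 = c + (c1 + a) + b := by decide
    exact this _ _ _ _ hm1
  -- the odd slices
  have hodd : ∀ z x, ¬ Even (wt x + m) → (wt x + z = m ∨ wt x = m + z) →
      g x = Q m b0 b1 C0 C1 x := by
    intro z
    induction z using Nat.strong_induction_on with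
    | _ z ih =>
      intro x hx hxz
      rw [Nat.not_even_iff_odd] at hx
      have hz2 : Odd z := by
        obtain ⟨r, hr⟩ := hx
        rcases hxz with h | h
        · exact ⟨r - wt x, by omega⟩
        · exact ⟨r - m, by omega⟩
      obtain ⟨z', hz'⟩ := hz2
      rcases Nat.eq_zero_or_pos z' with hz | hz
      · rcases hxz with h | h
        · exact hlow x (by omega)
        · exact hhigh x (by omega)
      have hzm : z ≤ m := by
        rcases hxz with h | h
        · omega
        · have : wt x ≤ 2 * m := by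
            rw [← hcard, ← card_filter_one]; exact card_le_univ _
          omega
      obtain ⟨e, Z, p, hZ, rfl⟩ := exists_param hcard x z hzm hxz
      have hwt : ∀ p : Fin m → ZMod 2, wt (vec e p (p + uZ Z)) + z = 2 * ∑ k ∈ Z, (p k).val + m := by
        intro p
        have := wt_coset e Z p
        rwa [hZ] at this
      obtain ⟨k0, hk0, k1, hk1, hk01⟩ := one_lt_card.1 (show 1 < #Z by omega)
      have hb : ∀ p q : Fin m → ZMod 2, dot (b1 + Pi.single (e (Sum.inl k0)) 1) (vec e p q) =
          dot b1 (vec e p q) + p k0 := by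
        intro p q
        rw [add_dot, dot_comm (Pi.single _ _), dot_single]
        congr 1
        simp [vec]
      refine step e Z (b1 + Pi.single (e (Sum.inl k0)) 1) (C1 + ((m - z' - 1 : ℕ) : ZMod 2))
        ((fun k => if k ∈ Z then 1 else 0) + Pi.single k0 1) ?_ ?_ ?_ ?_ ?_ ?_ p
      · intro h
        have := congrFun h k1
        simp [hk1, Ne.symm hk01] at this
      · simp only [Pi.add_apply]
        rw [sum_add_distrib, sum_boole]
        have h2 : univ.filter (fun k => k ∈ Z) = Z := by ext; simp
        rw [h2, hZ, hz']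
        have h3 : ∑ k, (Pi.single k0 (1 : ZMod 2) : Fin m → ZMod 2) k = 1 := by
          rw [sum_eq_single k0]
          · simp
          · intro j _ hj; simp [hj]
          · simp
        rw [h3]
        push_cast
        rw [two_mul, zmod_add_self]; decide
      · intro k hk
        have : k ≠ k0 := by rintro rfl; exact hk hk0
        simp [hk, this]
      · intro p
        have h2 := hwt p
        have h3 : ¬ Even (wt (vec e p (p + uZ Z)) + m) := by
          rw [Nat.not_even_iff_odd]
          exact ⟨∑ k ∈ Z, (p k).val + (m - z' - 1), by omega⟩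
        have h4 : (wt (vec e p (p + uZ Z)) + m) / 2 = (∑ k ∈ Z, (p k).val) + (m - z' - 1) := by omega
        unfold Q
        rw [if_neg h3, h4, hb, add_dot, dot_ind, Nat.cast_add, cast_sum_val, dot_comm (Pi.single _ _),
          dot_single]
        have : ∀ a b c d e : ZMod 2, a + b + (c + d) + (a + e) = b + d + (c + e) := by decide
        exact this _ _ _ _ _
      · refine coset hg e _ (uZ {k0}) (uZ Z) (C1 + ((m - 1 : ℕ) : ZMod 2)) ?_ ?_
        · intro p
          rw [hb]
          have h2 := wt_coset e {k0} p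
          rw [sum_singleton, card_singleton] at h2
          have h3 := ZMod.val_lt (p k0)
          have h5 : ¬ Even (wt (vec e p (p + uZ {k0})) + m) := by
            rw [Nat.not_even_iff_odd]
            exact ⟨(p k0).val + (m - 1), by omega⟩
          have h6 : (wt (vec e p (p + uZ {k0})) + m) / 2 = (p k0).val + (m - 1) := by omega
          have h7 : g (vec e p (p + uZ {k0})) = Q m b0 b1 C0 C1 (vec e p (p + uZ {k0})) := by
            rcases Nat.eq_zero_or_pos (p k0).val with h4 | h4
            · exact hlow _ (by omega)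
            · exact hhigh _ (by omega)
          rw [h7]
          unfold Q
          rw [if_neg h5, h6, Nat.cast_add]
          have h8 : (((p k0).val : ℕ) : ZMod 2) = p k0 := by simp
          rw [h8]
          have : ∀ a b c d : ZMod 2, a + b + (c + d) + (a + c) = b + d := by decide
          exact this _ _ _ _
        · intro h
          have := congrFun h k1
          simp [uZ, hk1, Ne.symm hk01] at this
      · intro q hq0 hq1
        have h2 := hwt q
        have h3 := sum_val_pos Z q hq0
        have h4 := sum_val_lt Z q hq1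
        rw [hZ] at h4
        have h5 : ¬ Even (wt (vec e q (q + uZ Z)) + m) := by
          rw [Nat.not_even_iff_odd]
          exact ⟨∑ k ∈ Z, (q k).val + (m - z' - 1), by omega⟩
        rcases Nat.lt_or_ge (wt (vec e q (q + uZ Z))) m with h6 | h6
        · exact ih (m - wt (vec e q (q + uZ Z))) (by omega) _ h5 (Or.inl (by omega))
        · exact ih (wt (vec e q (q + uZ Z)) - m) (by omega) _ h5 (Or.inr (by omega))
  refine ⟨b0, b1, C0, C1, ?_, fun x => ?_⟩
  · rw [← dot_one, ← dot_one]
    have : ∀ a b : ZMod 2, a + b = 0 → a = b := by decide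
    exact this _ _ hδ
  · by_cases hx : Even (wt x + m)
    · exact heven' x hx
    · rcases Nat.lt_or_ge (wt x) m with h | h
      · exact hodd (m - wt x) x hx (Or.inl (by omega))
      · exact hodd (wt x - m) x hx (Or.inr (by omega))

end Pool.Agent.X115.KB
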