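import Mathlib
import Pool.Agent.X115.KB.C

/-!
# Bent functions which are affine on the slices, part 4

The quadratic forms and their duals.
-/

set_option autoImplicit false

open Finset

namespace Pool.Agent.X115.KB

variable {ι : Type*} [Fintype ι] [LinearOrder ι]

/-- the complete quadratic form on the set `A` -/
def K (A : Finset ι) (x : ι → ZMod 2) : ZMod 2 := ∑ i ∈ A, ∑ j ∈ A with i < j, x i * x j

lemma h20 : (2 : ZMod 2) = 0 := by decide

omit [Fintype ι] in
lemma K_insert {a : ι} {s : Finset ι} (ha : ∀ x ∈ s, x < a) (x : ι → ZMod 2) :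
    K (insert a s) x = K s x + x a * ∑ i ∈ s, x i := by
  have has : a ∉ s := fun h => lt_irrefl a (ha a h)
  unfold K
  rw [sum_insert has]
  have h1 : (insert a s).filter (fun j => a < j) = ∅ := by
    ext j
    simp only [mem_filter, mem_insert, notMem_empty, iff_false, not_and, not_lt]
    rintro (rfl | h)
    · exact le_rfl
    · exact (ha j h).le
  rw [h1, sum_empty, zero_add]
  have h2 : ∀ i ∈ s, ∑ j ∈ insert a s with i < j, x i * x j =
      x a * x i + ∑ j ∈ s with i < j, x i * x j := by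
    intro i hi
    have h3 : (insert a s).filter (fun j => i < j) = insert a (s.filter (fun j => i < j)) := by
      rw [filter_insert, if_pos (ha i hi)]
    rw [h3, sum_insert (by simp [has])]
    ring
  rw [sum_congr rfl h2, sum_add_distrib, ← mul_sum, add_comm]

omit [Fintype ι] in
lemma K_add (A : Finset ι) (x z : ι → ZMod 2) :
    K A (x + z) = K A x + K A z + (∑ i ∈ A, x i) * (∑ i ∈ A, z i) + ∑ i ∈ A, x i * z i := by
  induction A using Finset.induction_on_max with
  | empty => simp [K]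
  | insert a s ha ih =>
    have has : a ∉ s := fun h => lt_irrefl a (ha a h)
    rw [K_insert ha, K_insert ha, K_insert ha, ih, sum_insert has, sum_insert has, sum_insert has]
    simp only [Pi.add_apply]
    rw [sum_add_distrib]
    linear_combination (-(x a * z a)) * h20

omit [Fintype ι] in
lemma K_eq_choose (A : Finset ι) (x : ι → ZMod 2) :
    K A x = ((#{i ∈ A | x i = 1}).choose 2 : ℕ) ∧ ∑ i ∈ A, x i = (#{i ∈ A | x i = 1} : ℕ) := by
  induction A using Finset.induction_on_max with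
  | empty => simp [K]
  | insert a s ha ih =>
    have has : a ∉ s := fun h => lt_irrefl a (ha a h)
    rw [K_insert ha, ih.1, sum_insert has, ih.2, filter_insert]
    rcases zmod_cases (x a) with h | h
    · rw [if_neg (by rw [h]; decide), h]; simp
    · rw [if_pos h, h, card_insert_of_notMem (by simp [has]), Nat.choose_succ_succ']
      push_cast
      rw [Nat.choose_one_right]
      constructor
      · ring
      · ring

lemma choose_two_cast (a : ℕ) : ((a.choose 2 : ℕ) : ZMod 2) = ((a / 2 : ℕ) : ZMod 2) := by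
  induction a with
  | zero => simp
  | succ a ih =>
    rw [Nat.choose_succ_succ', Nat.choose_one_right, Nat.cast_add, ih]
    rcases Nat.even_or_odd a with ⟨r, hr⟩ | ⟨r, hr⟩
    · rw [show (a + 1) / 2 = r by omega, show a / 2 = r by omega, hr]
      push_cast; rw [zmod_add_self, zero_add]
    · rw [show (a + 1) / 2 = r + 1 by omega, show a / 2 = r by omega, hr]
      push_cast; rw [two_mul, zmod_add_self]; ring

lemma choose_two_add (a b : ℕ) : ((a.choose 2 : ℕ) : ZMod 2) + ((b.choose 2 : ℕ) : ZMod 2) =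
    (((a + b) / 2 : ℕ) : ZMod 2) + a * (a + b + 1) := by
  rw [choose_two_cast, choose_two_cast]
  rcases Nat.even_or_odd a with ⟨r, hr⟩ | ⟨r, hr⟩ <;> rcases Nat.even_or_odd b with ⟨s, hs⟩ | ⟨s, hs⟩
  · rw [show a / 2 = r by omega, show b / 2 = s by omega, show (a + b) / 2 = r + s by omega, hr, hs]
    push_cast; rw [zmod_add_self]; ring
  · rw [show a / 2 = r by omega, show b / 2 = s by omega, show (a + b) / 2 = r + s by omega, hr, hs]
    push_cast; rw [zmod_add_self]; ring
  · rw [show a / 2 = r by omega, show b / 2 = s by omega, show (a + b) / 2 = r + s by omega, hr, hs]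
    push_cast; rw [two_mul (r : ZMod 2), zmod_add_self, zmod_add_self, zero_add, add_zero]
    have : ∀ a b : ZMod 2, a + b = a + b + 1 * (1 + 1) := by decide
    exact this _ _
  · rw [show a / 2 = r by omega, show b / 2 = s by omega, show (a + b) / 2 = r + s + 1 by omega,
      hr, hs]
    push_cast; rw [two_mul (r : ZMod 2), two_mul (s : ZMod 2), zmod_add_self, zmod_add_self]
    have : ∀ a b : ZMod 2, a + b = a + b + 1 + (0 + 1) * (0 + 1 + (0 + 1) + 1) := by decide
    exact this _ _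

/-- the class of quadratic functions -/
def Cls (A : Finset ι) (f : (ι → ZMod 2) → ZMod 2) : Prop :=
  ∃ (l : ι → ZMod 2) (c : ZMod 2), ∀ x, f x = K A x + K Aᶜ x + dot l x + c

lemma K_sum (A : Finset ι) (x : ι → ZMod 2) :
    K A x + K Aᶜ x = ((wt x / 2 : ℕ) : ZMod 2) + (∑ i ∈ A, x i) * (dot 1 x + 1) := by
  obtain ⟨h1, h2⟩ := K_eq_choose A x
  obtain ⟨h3, h4⟩ := K_eq_choose Aᶜ x
  have h5 : #{i ∈ A | x i = 1} + #{i ∈ Aᶜ | x i = 1} = wt x := by
    rw [← card_filter_one, ← card_union_of_disjoint, ← filter_union, union_compl]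
    exact disjoint_filter_filter disjoint_compl_right
  have h6 : dot 1 x = ((wt x : ℕ) : ZMod 2) := by rw [cast_wt, dot_comm]
  rw [h1, h3, choose_two_add, h2, h5, h6, ← h5, Nat.cast_add]

lemma Q_cls (m : ℕ) (b0 b1 : ι → ZMod 2) (c0 c1 : ZMod 2) :
    ∃ (l : ι → ZMod 2) (c : ZMod 2), ∀ x, Q m b0 b1 c0 c1 x =
      K {i | b0 i + b1 i = 1} x + K ({i | b0 i + b1 i = 1} : Finset ι)ᶜ x + dot l x + c := by
  have hA : ∀ x : ι → ZMod 2, ∑ i with b0 i + b1 i = 1, x i = dot b0 x + dot b1 x := by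
    intro x
    rw [← add_dot]
    unfold dot
    rw [sum_filter]
    refine sum_congr rfl fun i _ => ?_
    rw [Pi.add_apply]
    rcases zmod_cases (b0 i + b1 i) with h | h <;> rw [h] <;> simp
  simp only [K_sum, hA]
  have hw : ∀ x : ι → ZMod 2, dot 1 x = ((wt x : ℕ) : ZMod 2) := by
    intro x; rw [cast_wt, dot_comm]
  have hsm : ∀ (c : ZMod 2) (b x : ι → ZMod 2), dot (b + c • 1) x = dot b x + c * dot 1 x := by
    intro c b x
    rw [add_dot]; congr 1
    unfold dot
    rw [mul_sum]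
    exact sum_congr rfl fun i _ => by simp
  rcases Nat.even_or_odd m with ⟨r, hr⟩ | ⟨r, hr⟩
  · refine ⟨b1 + (c0 + c1) • 1, c0 + r, fun x => ?_⟩
    unfold Q
    rw [hsm, hw]
    rcases Nat.even_or_odd (wt x) with ⟨s, hs⟩ | ⟨s, hs⟩
    · rw [if_pos (by exact ⟨s + r, by omega⟩), show (wt x + m) / 2 = s + r by omega,
        show wt x / 2 = s by omega, hs]
      push_cast; rw [zmod_add_self]
      generalize dot b0 x = x0, dot b1 x = x1, (s : ZMod 2) = x2, (r : ZMod 2) = x3
      revert x0 x1 x2 x3 c0 c1; decide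
    · rw [if_neg (by rw [Nat.not_even_iff_odd]; exact ⟨s + r, by omega⟩),
        show (wt x + m) / 2 = s + r by omega, show wt x / 2 = s by omega, hs]
      push_cast; rw [two_mul, zmod_add_self]
      generalize dot b0 x = x0, dot b1 x = x1, (s : ZMod 2) = x2, (r : ZMod 2) = x3
      revert x0 x1 x2 x3 c0 c1; decide
  · refine ⟨b0 + (c0 + c1 + 1) • 1, c1 + r, fun x => ?_⟩
    unfold Q
    rw [hsm, hw]
    rcases Nat.even_or_odd (wt x) with ⟨s, hs⟩ | ⟨s, hs⟩
    · rw [if_neg (by rw [Nat.not_even_iff_odd]; exact ⟨s + r, by omega⟩),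
        show (wt x + m) / 2 = s + r by omega, show wt x / 2 = s by omega, hs]
      push_cast; rw [zmod_add_self]
      generalize dot b0 x = x0, dot b1 x = x1, (s : ZMod 2) = x2, (r : ZMod 2) = x3
      revert x0 x1 x2 x3 c0 c1; decide
    · rw [if_pos (by exact ⟨s + r + 1, by omega⟩), show (wt x + m) / 2 = s + r + 1 by omega,
        show wt x / 2 = s by omega, hs]
      push_cast; rw [two_mul, zmod_add_self]
      generalize dot b0 x = x0, dot b1 x = x1, (s : ZMod 2) = x2, (r : ZMod 2) = x3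
      revert x0 x1 x2 x3 c0 c1; decide

/-! ## The dual -/

/-- the bilinear form -/
def bil (A : Finset ι) (x z : ι → ZMod 2) : ZMod 2 :=
  (∑ i ∈ A, x i) * (∑ i ∈ A, z i) + (∑ i ∈ Aᶜ, x i) * (∑ i ∈ Aᶜ, z i) + dot x z

lemma f_add {A : Finset ι} {f : (ι → ZMod 2) → ZMod 2} {l : ι → ZMod 2} {c : ZMod 2}
    (hf : ∀ x, f x = K A x + K Aᶜ x + dot l x + c) (x z : ι → ZMod 2) :
    f (x + z) = f x + f z + c + bil A x z := by
  rw [hf, hf x, hf z, K_add, K_add, dot_add]
  have h1 : dot x z = ∑ i ∈ A, x i * z i + ∑ i ∈ Aᶜ, x i * z i := by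
    unfold dot; exact (sum_add_sum_compl A _).symm
  unfold bil
  rw [h1]
  linear_combination (-c) * h20

/-- the involution -/
def M (A : Finset ι) (y : ι → ZMod 2) : ι → ZMod 2 :=
  fun i => y i + if i ∈ A then ∑ i ∈ A, y i else ∑ i ∈ Aᶜ, y i

lemma sum_const_even {A : Finset ι} (hA : Even #A) (c : ZMod 2) : ∑ _i ∈ A, c = 0 := by
  obtain ⟨r, hr⟩ := hA
  rw [sum_const, hr, add_smul]; exact zmod_add_self _

/-- a vector constant on both parts -/
def cst (A : Finset ι) (a b : ZMod 2) : ι → ZMod 2 := fun i => if i ∈ A then a else b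

lemma M_eq (A : Finset ι) (y : ι → ZMod 2) : M A y = y + cst A (∑ i ∈ A, y i) (∑ i ∈ Aᶜ, y i) := rfl

lemma sum_cst {A : Finset ι} (hA : Even #A) (a b : ZMod 2) : ∑ i ∈ A, cst A a b i = 0 := by
  rw [← sum_const_even hA a]
  exact sum_congr rfl fun i hi => by simp [cst, hi]

lemma sum_cst' {A : Finset ι} (hA : Even #Aᶜ) (a b : ZMod 2) : ∑ i ∈ Aᶜ, cst A a b i = 0 := by
  rw [← sum_const_even hA b]
  exact sum_congr rfl fun i hi => by rw [mem_compl] at hi; simp [cst, hi]

lemma dot_cst (A : Finset ι) (x : ι → ZMod 2) (a b : ZMod 2) :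
    dot x (cst A a b) = (∑ i ∈ A, x i) * a + (∑ i ∈ Aᶜ, x i) * b := by
  unfold dot
  rw [← sum_add_sum_compl A, sum_mul, sum_mul]
  congr 1
  · exact sum_congr rfl fun i hi => by simp [cst, hi]
  · exact sum_congr rfl fun i hi => by rw [mem_compl] at hi; simp [cst, hi]

lemma bil_M {A : Finset ι} (hA : Even #A) (hA' : Even #Aᶜ) (x y : ι → ZMod 2) :
    bil A x (M A y) = dot x y := by
  unfold bil
  have h1 : ∑ i ∈ A, M A y i = ∑ i ∈ A, y i := by
    rw [M_eq]; simp only [Pi.add_apply]; rw [sum_add_distrib, sum_cst hA, add_zero]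
  have h2 : ∑ i ∈ Aᶜ, M A y i = ∑ i ∈ Aᶜ, y i := by
    rw [M_eq]; simp only [Pi.add_apply]; rw [sum_add_distrib, sum_cst' hA', add_zero]
  rw [h1, h2, M_eq, dot_add, dot_cst]
  have : ∀ a b c : ZMod 2, a + b + (c + (a + b)) = c := by decide
  exact this _ _ _

omit [LinearOrder ι] in
lemma dot_self (y : ι → ZMod 2) : dot y y = dot 1 y := by
  unfold dot
  refine sum_congr rfl fun i _ => ?_
  rw [Pi.one_apply]
  rcases zmod_cases (y i) with h | h <;> rw [h] <;> decide

lemma dot_M (A : Finset ι) (y : ι → ZMod 2) : dot y (M A y) = 0 := by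
  rw [M_eq, dot_add, dot_cst, dot_self]
  have h1 : dot 1 y = ∑ i ∈ A, y i + ∑ i ∈ Aᶜ, y i := by
    rw [dot_comm, dot_one]; exact (sum_add_sum_compl A _).symm
  rw [h1]
  have : ∀ a b : ZMod 2, a + b + (a * a + b * b) = 0 := by decide
  exact this _ _

lemma transform {A : Finset ι} (hA : Even #A) (hA' : Even #Aᶜ) {f : (ι → ZMod 2) → ZMod 2}
    {l : ι → ZMod 2} {c : ZMod 2} (hf : ∀ x, f x = K A x + K Aᶜ x + dot l x + c)
    (y : ι → ZMod 2) :
    ∑ x, sgn (f x + dot x y) = sgn (f (M A y) + c) * ∑ x, sgn (f x) := by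
  rw [mul_sum, ← Equiv.sum_comp (Equiv.addRight (M A y))]
  refine sum_congr rfl fun x _ => ?_
  rw [Equiv.coe_addRight, f_add hf, bil_M hA hA', add_dot, dot_comm (M A y) y, dot_M, ← sgn_add]
  congr 1
  have : ∀ a b c d : ZMod 2, a + b + c + d + (d + 0) = b + c + a := by decide
  exact this _ _ _ _

lemma K_const (A : Finset ι) (a : ZMod 2) : K A (fun _ => a) = a * K A 1 := by
  unfold K
  rw [mul_sum]
  refine sum_congr rfl fun i _ => ?_
  rw [mul_sum]
  refine sum_congr rfl fun j _ => ?_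
  rw [Pi.one_apply, Pi.one_apply]
  have : ∀ a : ZMod 2, a * a = a * (1 * 1) := by decide
  exact this a

omit [Fintype ι] in
lemma K_congr {A : Finset ι} {x y : ι → ZMod 2} (h : ∀ i ∈ A, x i = y i) : K A x = K A y := by
  unfold K
  refine sum_congr rfl fun i hi => ?_
  refine sum_congr rfl fun j hj => ?_
  rw [mem_filter] at hj
  rw [h i hi, h j hj.1]

/-- **The dual of a function of the class.** -/
lemma dual_cls {m : ℕ} (hcard : Fintype.card ι = 2 * m) {A : Finset ι} (hA : Even #A)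
    {f : (ι → ZMod 2) → ZMod 2} (hf : Cls A f) :
    ∃ g : (ι → ZMod 2) → ZMod 2, Cls A g ∧ ∀ y, ∑ x, sgn (f x + dot x y) = 2 ^ m * sgn (g y) := by
  have hA' : Even #Aᶜ := by
    rw [card_compl, hcard]
    obtain ⟨r, hr⟩ := hA
    exact ⟨m - r, by omega⟩
  obtain ⟨l, c, hf⟩ := hf
  set N0 : ℤ := ∑ x, sgn (f x) with hN0
  have hcV : (Fintype.card (ι → ZMod 2) : ℤ) = 2 ^ m * 2 ^ m := by
    rw [Fintype.card_fun, ZMod.card, hcard, ← pow_add, two_mul]; push_cast; rfl
  have hN : N0 * N0 = 2 ^ m * 2 ^ m := by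
    have h1 := corr (fun x => sgn (f x)) 0
    have h2 : ∀ a : ι → ZMod 2, (∑ u, sgn (dot a u) * sgn (f u)) ^ 2 = N0 * N0 := by
      intro a
      have : ∑ u, sgn (dot a u) * sgn (f u) = ∑ x, sgn (f x + dot x a) := by
        refine sum_congr rfl fun x _ => ?_
        rw [sgn_add, dot_comm a x, mul_comm]
      rw [this, transform hA hA' hf]
      linear_combination (N0 * N0) * sgn_mul_self (f (M A a) + c)
    simp only [h2, dot_zero, sgn_zero, one_mul, add_zero, sgn_mul_self] at h1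
    rw [sum_const, sum_const, card_univ, nsmul_eq_mul, nsmul_eq_mul, mul_one, hcV] at h1
    have : (2 : ℤ) ^ m * 2 ^ m ≠ 0 := by positivity
    exact mul_left_cancel₀ this h1
  obtain ⟨c', hc'⟩ : ∃ c' : ZMod 2, N0 = 2 ^ m * sgn c' := by
    rcases mul_self_eq_mul_self_iff.1 hN with h | h
    · exact ⟨0, by rw [h, sgn_zero, mul_one]⟩
    · exact ⟨1, by rw [h, sgn_one]; ring⟩
  refine ⟨fun y => f (M A y) + c + c', ?_, fun y => ?_⟩
  · refine ⟨l + 1 + cst A (K A 1 + ∑ i ∈ A, l i) (K Aᶜ 1 + ∑ i ∈ Aᶜ, l i), c', fun y => ?_⟩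
    have e1 : f (M A y) = f y + f (cst A (∑ i ∈ A, y i) (∑ i ∈ Aᶜ, y i)) + c + dot 1 y := by
      rw [M_eq, f_add hf]
      congr 1
      unfold bil
      rw [sum_cst hA, sum_cst' hA', dot_cst, dot_comm 1 y, dot_one, ← sum_add_sum_compl A]
      have : ∀ a b : ZMod 2, a * 0 + b * 0 + (a * a + b * b) = a + b := by decide
      exact this _ _
    have e2 : ∀ a b : ZMod 2, f (cst A a b) = a * K A 1 + b * K Aᶜ 1 +
        ((∑ i ∈ A, l i) * a + (∑ i ∈ Aᶜ, l i) * b) + c := by
      intro a b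
      rw [hf, dot_cst]
      have h1 : K A (cst A a b) = K A (fun _ => a) := K_congr fun i hi => by simp [cst, hi]
      have h2 : K Aᶜ (cst A a b) = K Aᶜ (fun _ => b) :=
        K_congr fun i hi => by rw [mem_compl] at hi; simp [cst, hi]
      rw [h1, h2, K_const, K_const]
    show f (M A y) + c + c' = _
    rw [e1, e2, hf y, add_dot, add_dot, dot_comm (cst _ _ _) y, dot_cst]
    generalize K A y = x1, K Aᶜ y = x2, dot l y = x3, ∑ i ∈ A, y i = x4, ∑ i ∈ Aᶜ, y i = x5,
      K A 1 = x6, K Aᶜ 1 = x7, ∑ i ∈ A, l i = x8, ∑ i ∈ Aᶜ, l i = x9, dot 1 y = x10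
    linear_combination (2 * c) * h20
  · rw [transform hA hA' hf, sgn_add (f (M A y) + c) c', ← hN0, hc']
    ring

lemma cls_bent {m : ℕ} {f g : (ι → ZMod 2) → ZMod 2}
    (h : ∀ y, ∑ x, sgn (f x + dot x y) = 2 ^ m * sgn (g y)) : Bent m f := by
  intro y
  rw [h y]
  have e1 := sgn_mul_self (g y)
  have e2 : (4 : ℤ) ^ m = 2 ^ m * 2 ^ m := by rw [← mul_pow]; norm_num
  rw [e2]
  linear_combination (2 ^ m * 2 ^ m) * e1

end Pool.Agent.X115.KB
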