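import Mathlib
import Pool.Agent.X115.KB.D

/-!
# `k`-bent functions

The transforms and the classification.
-/

set_option autoImplicit false

open Finset

namespace Pool.Agent.X115.KB

/-- the first index of a pair -/
def fa {m : ℕ} (k : Fin m) : Fin (2 * m) := ⟨2 * k, by omega⟩
/-- the second index of a pair -/
def fb {m : ℕ} (k : Fin m) : Fin (2 * m) := ⟨2 * k + 1, by omega⟩

lemma fa_ne_fb {m : ℕ} (k l : Fin m) : fa k ≠ fb l := by
  intro h; have := congrArg Fin.val h; simp only [fa, fb] at this; omega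
lemma fa_inj {m : ℕ} {k l : Fin m} (h : k ≠ l) : fa k ≠ fa l := by
  intro h'; have := congrArg Fin.val h'; simp only [fa] at this
  exact h (Fin.ext (by omega))
lemma fb_inj {m : ℕ} {k l : Fin m} (h : k ≠ l) : fb k ≠ fb l := by
  intro h'; have := congrArg Fin.val h'; simp only [fb] at this
  exact h (Fin.ext (by omega))

/-- the sum of the two coordinates of a pair -/
def up {m : ℕ} (k : Fin m) (x : Fin (2 * m) → ZMod 2) : ZMod 2 := x (fa k) + x (fb k)

/-- the pair vector -/
def EP {m : ℕ} (k : Fin m) : Fin (2 * m) → ZMod 2 := E (fa k) (fb k)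

lemma dot_E {ι : Type*} [Fintype ι] [DecidableEq ι] (x : ι → ZMod 2) (i j : ι) :
    dot x (E i j) = x i + x j := by
  unfold E; rw [dot_add, dot_single, dot_single]

lemma dot_EP {m : ℕ} (k : Fin m) (x : Fin (2 * m) → ZMod 2) : dot x (EP k) = up k x := dot_E _ _ _

lemma up_add {m : ℕ} (k : Fin m) (x y : Fin (2 * m) → ZMod 2) : up k (x + y) = up k x + up k y := by
  unfold up; simp only [Pi.add_apply]; ring

lemma up_EP {m : ℕ} (k l : Fin m) : up k (EP l) = 0 := by
  unfold up EP
  by_cases h : k = l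
  · subst h
    rw [E_apply_left (fa_ne_fb _ _), E_apply_right (fa_ne_fb _ _)]; decide
  · rw [E_apply_of_ne (fa_inj h) (fa_ne_fb _ _), E_apply_of_ne (fa_ne_fb _ _).symm (fb_inj h)]
    decide

lemma up_add_EP {m : ℕ} (k l : Fin m) (y : Fin (2 * m) → ZMod 2) : up k (y + EP l) = up k y := by
  rw [up_add, up_EP, add_zero]

/-- disjoint pairs do not interact -/
def NoInt {m : ℕ} (g : (Fin (2 * m) → ZMod 2) → ZMod 2) : Prop :=
  ∀ k l : Fin m, k ≠ l → ∀ y, g (y + EP l + EP k) + g (y + EP l) = g (y + EP k) + g y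

lemma I_pow_val (v : ZMod 2) :
    Complex.I ^ v.val = (1 + Complex.I) / 2 + (1 - Complex.I) / 2 * (sgn v : ℂ) := by
  rcases zmod_cases v with h | h
  · rw [h, sgn_zero]; simp; ring
  · rw [h, sgn_one]
    have : (1 : ZMod 2).val = 1 := rfl
    rw [this, pow_one]; push_cast; ring

lemma phi {m : ℕ} {f g : (Fin (2 * m) → ZMod 2) → ZMod 2}
    (h : ∀ y, ∑ x, sgn (f x + dot x y) = 2 ^ m * sgn (g y)) (hg : NoInt g) (S : Finset (Fin m)) :
    ∀ y : Fin (2 * m) → ZMod 2,
      ∑ x, ((sgn (f x + dot x y) : ℤ) : ℂ) * ∏ k ∈ S, Complex.I ^ (up k y * up k x).val =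
        2 ^ m * (sgn (g y) : ℂ) * ∏ k ∈ S, Complex.I ^ (up k y * (g (y + EP k) + g y)).val := by
  induction S using Finset.induction_on with
  | empty =>
    intro y
    simp only [prod_empty, mul_one]
    have := congrArg (fun n : ℤ => (n : ℂ)) (h y)
    push_cast at this
    exact this
  | insert k S hk ih =>
    intro y
    simp only [prod_insert hk]
    rcases zmod_cases (up k y) with hu | hu
    · simp only [hu, zero_mul, ZMod.val_zero, pow_zero, one_mul]
      exact ih y
    · simp only [hu, one_mul]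
      have h1 : ∀ x : Fin (2 * m) → ZMod 2, ((sgn (f x + dot x y) : ℤ) : ℂ) *
          (Complex.I ^ (up k x).val * ∏ l ∈ S, Complex.I ^ (up l y * up l x).val) =
          (1 + Complex.I) / 2 * (((sgn (f x + dot x y) : ℤ) : ℂ) *
            ∏ l ∈ S, Complex.I ^ (up l y * up l x).val) +
          (1 - Complex.I) / 2 * (((sgn (f x + dot x (y + EP k)) : ℤ) : ℂ) *
            ∏ l ∈ S, Complex.I ^ (up l (y + EP k) * up l x).val) := by
        intro x
        have e1 : sgn (f x + dot x (y + EP k)) = sgn (f x + dot x y) * sgn (up k x) := by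
          rw [dot_add, dot_EP, ← add_assoc, sgn_add]
        simp only [up_add_EP]
        rw [e1, I_pow_val]
        push_cast
        ring
      simp only [h1]
      rw [sum_add_distrib, ← mul_sum, ← mul_sum, ih, ih]
      have h2 : ∏ l ∈ S, Complex.I ^ (up l (y + EP k) * (g (y + EP k + EP l) + g (y + EP k))).val =
          ∏ l ∈ S, Complex.I ^ (up l y * (g (y + EP l) + g y)).val := by
        refine prod_congr rfl fun l hl => ?_
        have hlk : l ≠ k := by rintro rfl; exact hk hl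
        rw [up_add_EP, hg l k hlk y]
      rw [h2, I_pow_val (g (y + EP k) + g y)]
      have e3 : ((sgn (g (y + EP k) + g y) : ℤ) : ℂ) = (sgn (g (y + EP k)) : ℂ) * (sgn (g y) : ℂ) := by
        rw [sgn_add]; push_cast; ring
      have e4 : ((sgn (g y) : ℤ) : ℂ) * (sgn (g y) : ℂ) = 1 := by
        exact_mod_cast sgn_mul_self (g y)
      rw [e3]
      linear_combination (-(2 ^ m * (1 - Complex.I) / 2 * (sgn (g (y + EP k)) : ℂ) *
        ∏ l ∈ S, Complex.I ^ (up l y * (g (y + EP l) + g y)).val)) * e4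

lemma re_pow (s : ℕ) :
    ((1 + Complex.I) * Complex.I ^ s).re = (sgn ((s.choose 2 : ℕ) + (s : ℕ) : ZMod 2) : ℝ) := by
  have h4 : ∀ q r : ℕ, Complex.I ^ (4 * q + r) = Complex.I ^ r := by
    intro q r; rw [pow_add, pow_mul, Complex.I_pow_four, one_pow, one_mul]
  rw [choose_two_cast]
  obtain ⟨q, r, hr, rfl⟩ : ∃ q r, r < 4 ∧ s = 4 * q + r := ⟨s / 4, s % 4, by omega, by omega⟩
  have e1 : (4 : ZMod 2) = 0 := by decide
  rw [h4]
  interval_cases r
  · rw [show (4 * q + 0) / 2 = 2 * q by omega]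
    push_cast; rw [h20, e1]; simp [sgn_zero]
  · rw [show (4 * q + 1) / 2 = 2 * q by omega]
    push_cast; rw [h20, e1]; simp [sgn_one]
  · rw [show (4 * q + 2) / 2 = 2 * q + 1 by omega]
    push_cast; rw [h20, e1]; simp [sgn_one]
  · rw [show (4 * q + 3) / 2 = 2 * q + 1 by omega]
    have : (3 : ZMod 2) = 1 := by decide
    have h11 : (1 : ZMod 2) + 1 = 0 := by decide
    push_cast; rw [h20, e1, this]
    simp only [zero_mul, zero_add, h11, sgn_zero]
    have : Complex.I ^ 3 = - Complex.I := Complex.I_pow_three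
    rw [this]; simp

lemma re_prod {m : ℕ} (S : Finset (Fin m)) (v : Fin m → ZMod 2) :
    ((1 + Complex.I) * ∏ k ∈ S, Complex.I ^ (v k).val).re = (sgn (K S v + ∑ k ∈ S, v k) : ℝ) := by
  obtain ⟨h1, h2⟩ := K_eq_choose S v
  have h3 : ∑ k ∈ S, (v k).val = #{i ∈ S | v i = 1} := by
    rw [card_filter]
    refine sum_congr rfl fun i _ => ?_
    rcases zmod_cases (v i) with h | h <;> rw [h] <;> decide
  rw [prod_pow_eq_pow_sum, h3, re_pow, h1, h2]

/-- the quadratic part of the form, in another shape -/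
lemma quad_eq {m : ℕ} (j : ℕ) (v : Fin m → ZMod 2) :
    ∑ i : Fin m, ∑ i' : Fin m with i ≤ i' ∧ i'.val < j, v i * v i' =
      K {i : Fin m | i.val < j} v + ∑ i : Fin m with i.val < j, v i := by
  unfold K
  rw [← sum_add_distrib, sum_filter]
  refine sum_congr rfl fun i _ => ?_
  by_cases hi : i.val < j
  · rw [if_pos hi]
    have h1 : univ.filter (fun i' : Fin m => i ≤ i' ∧ i'.val < j) =
        insert i ((univ.filter (fun i' : Fin m => i'.val < j)).filter (fun i' => i < i')) := by
      ext i'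
      simp only [mem_filter, mem_univ, true_and, mem_insert]
      constructor
      · rintro ⟨h2, h3⟩
        rcases h2.eq_or_lt with h4 | h4
        · exact Or.inl h4.symm
        · exact Or.inr ⟨h3, h4⟩
      · rintro (rfl | ⟨h2, h3⟩)
        · exact ⟨le_rfl, hi⟩
        · exact ⟨h3.le, h2⟩
    rw [h1, sum_insert (by simp)]
    have : ∀ a : ZMod 2, a * a = a := by decide
    rw [this, add_comm]
  · rw [if_neg hi]
    apply sum_eq_zero
    intro i' hi'
    simp only [mem_filter, mem_univ, true_and] at hi'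
    have : i.val ≤ i'.val := hi'.1
    omega

/-- **Values of the transforms.** -/
lemma trans_value {m : ℕ} {f g : (Fin (2 * m) → ZMod 2) → ZMod 2}
    (h : ∀ y, ∑ x, sgn (f x + dot x y) = 2 ^ m * sgn (g y)) (hg : NoInt g) (S : Finset (Fin m))
    (y : Fin (2 * m) → ZMod 2) :
    ∃ c : ZMod 2, ∑ x, sgn (f x + dot x y + (K S (fun k => up k y * up k x) +
      ∑ k ∈ S, up k y * up k x)) = 2 ^ m * sgn c := by
  have h1 := congrArg (fun z : ℂ => ((1 + Complex.I) * z).re) (phi h hg S y)
  rw [mul_sum, Complex.re_sum] at h1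
  have h2 : ∀ x : Fin (2 * m) → ZMod 2, ((1 + Complex.I) * (((sgn (f x + dot x y) : ℤ) : ℂ) *
      ∏ k ∈ S, Complex.I ^ (up k y * up k x).val)).re =
      ((sgn (f x + dot x y + (K S (fun k => up k y * up k x) + ∑ k ∈ S, up k y * up k x)) : ℤ) : ℝ) := by
    intro x
    have e0 : ((sgn (f x + dot x y) : ℤ) : ℂ) = (((sgn (f x + dot x y) : ℤ) : ℝ) : ℂ) := by push_cast; rfl
    rw [mul_left_comm, e0, Complex.re_ofReal_mul, re_prod S (fun k => up k y * up k x),
      sgn_add _ (_ + _)]
    push_cast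
    rfl
  simp only [h2] at h1
  have h3 : ((1 + Complex.I) * (2 ^ m * (sgn (g y) : ℂ) *
      ∏ k ∈ S, Complex.I ^ (up k y * (g (y + EP k) + g y)).val)).re =
      2 ^ m * (sgn (g y) : ℝ) * (sgn (K S (fun k => up k y * (g (y + EP k) + g y)) +
        ∑ k ∈ S, up k y * (g (y + EP k) + g y)) : ℝ) := by
    rw [← re_prod S (fun k => up k y * (g (y + EP k) + g y))]
    have : (1 + Complex.I) * (2 ^ m * (sgn (g y) : ℂ) *
      ∏ k ∈ S, Complex.I ^ (up k y * (g (y + EP k) + g y)).val) =
      ((2 ^ m * (sgn (g y) : ℝ) : ℝ) : ℂ) * ((1 + Complex.I) *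
        ∏ k ∈ S, Complex.I ^ (up k y * (g (y + EP k) + g y)).val) := by
      push_cast; ring
    rw [this, Complex.re_ofReal_mul]
  rw [h3] at h1
  refine ⟨g y + (K S (fun k => up k y * (g (y + EP k) + g y)) +
    ∑ k ∈ S, up k y * (g (y + EP k) + g y)), ?_⟩
  rw [sgn_add (g y)]
  have : ((∑ x, sgn (f x + dot x y + (K S (fun k => up k y * up k x) +
      ∑ k ∈ S, up k y * up k x)) : ℤ) : ℝ) = ((2 ^ m * (sgn (g y) * sgn (K S (fun k => up k y *
        (g (y + EP k) + g y)) + ∑ k ∈ S, up k y * (g (y + EP k) + g y))) : ℤ) : ℝ) := by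
    push_cast
    rw [h1]
    ring
  exact_mod_cast this

/-- functions of the class -/
lemma cls_noInt {m : ℕ} {A : Finset (Fin (2 * m))} {g : (Fin (2 * m) → ZMod 2) → ZMod 2}
    (hg : Cls A g) : NoInt g := by
  obtain ⟨l, c, hg⟩ := hg
  intro k l' hkl y
  rw [f_add hg (y + EP l') (EP k), f_add hg y (EP k)]
  have h1 : bil A (y + EP l') (EP k) = bil A y (EP k) := by
    unfold bil
    simp only [Pi.add_apply]
    rw [sum_add_distrib, sum_add_distrib, add_dot]
    have h2 : dot (EP l') (EP k) = 0 := by rw [dot_EP, up_EP]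
    have h3 : ∀ n : Fin m, ∑ i ∈ A, EP n i = ∑ i ∈ Aᶜ, EP n i := by
      intro n
      have h4 : ∑ i ∈ A, EP n i + ∑ i ∈ Aᶜ, EP n i = 0 := by
        rw [sum_add_sum_compl, ← dot_one, dot_comm, dot_EP]
        unfold up
        simp only [Pi.one_apply]; decide
      have : ∀ a b : ZMod 2, a + b = 0 → a = b := by decide
      exact this _ _ h4
    rw [h2, h3 l', h3 k]
    have : ∀ a b c d e : ZMod 2, (a + c) * d + (b + c) * d + (e + 0) = a * d + b * d + e := by decide
    exact this _ _ _ _ _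
  rw [h1]
  have : ∀ a b c d e : ZMod 2, a + b + c + d + a = e + b + c + d + e := by decide
  exact this _ _ _ _ _

end Pool.Agent.X115.KB
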